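import Pool.Agent.Q81.ExpMaxF

set_option autoImplicit false

/-!
# The expected maximum of independent exponential variables: `(∗)` holds exactly for `n ≤ 6`

`S n a` is the alternating sum of the reciprocals of the nonempty subset sums of `a_1, …, a_n`, the
expected maximum of independent exponential variables with means `1 / a_i`. The inequality
`(∑ a_i ^ (-2)) ^ (1/2) ≤ S n a` for all positive `a` is valid for `n = 4, 5, 6` (the open cases),
and altogether exactly for `n ≤ 6`.

Proof. Put `s_i = a_i ^ (-2)`. For a pair `a_i = x < y = a_j` the derivative of `S` under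
`s_i - τ, s_j + τ` is `-(1/2) ∫ t P(t) D(t) dt`, where `P` is the product of the other factors
`1 - exp (- a_k t)` and `D(t) = x³ e^(-xt) (1 - e^(-yt)) - y³ e^(-yt) (1 - e^(-xt))` changes its sign
once, from minus to plus. If one of the other `a_k` is at most `x` and another one at most `y`, then
`P / ((1 - e^(-xt)) (1 - e^(-yt)))` is increasing, so that it suffices to treat
`P = (1 - e^(-xt)) (1 - e^(-yt))`, a rational function of `x, y` which is positive by inspection. Hence
for `n ≥ 4` all values but the largest mean may be made equal, and for `n = 6` there remains an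
inequality in one variable whose polynomial has positive coefficients.
-/

namespace Pool.Agent.Results.MP_2ee812_an.ExpectedMaximum

/-- `S_n(a_1, …, a_n) = ∑_{∅ ≠ J} (-1)^(|J|+1) (∑_{j ∈ J} a_j)^(-1)` -/
noncomputable def S (n : ℕ) (a : Fin n → ℝ) : ℝ :=
  ∑ J ∈ (Finset.univ : Finset (Finset (Fin n))).erase ∅,
    (-1 : ℝ) ^ (J.card + 1) * (∑ j ∈ J, a j)⁻¹

/-- the inequality `(∗)` is valid for `n` -/
def Valid (n : ℕ) : Prop :=
  ∀ a : Fin n → ℝ, (∀ i, 0 < a i) → Real.sqrt (∑ i, (a i ^ 2)⁻¹) ≤ S n a

/-- `(∗)` is valid for `n` if and only if `n ≤ 6`. -/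
theorem result : ∀ n : ℕ, 1 ≤ n → (Valid n ↔ n ≤ 6) :=
  fun n _ => Pool.Agent.Q81.ExpMax.main n

end Pool.Agent.Results.MP_2ee812_an.ExpectedMaximum
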